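import Pool.Agent.Helper26.LU.Goals

/-!
# Project LU, packet D5: the best centre
-/

namespace Pool.Agent.Helper3.LU

open Pool.Agent.Helper26.LU Matrix

/-- Monomials of degree one are linear. -/
theorem mon_lin {N : ℕ} (t : Idx N) (h : dg t = 1) (x : V) :
    mon t x = ((t.1.1 : ℕ) : ℝ) * x 0 + ((t.1.2.1 : ℕ) : ℝ) * x 1 + ((t.1.2.2 : ℕ) : ℝ) * x 2 := by
  unfold dg at h
  unfold mon
  rcases Nat.eq_zero_or_pos (t.1.1 : ℕ) with h0 | h0
  · rcases Nat.eq_zero_or_pos (t.1.2.1 : ℕ) with h1 | h1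
    · have h2 : (t.1.2.2 : ℕ) = 1 := by omega
      rw [h0, h1, h2]
      simp
    · have h1' : (t.1.2.1 : ℕ) = 1 := by omega
      have h2 : (t.1.2.2 : ℕ) = 0 := by omega
      rw [h0, h1', h2]
      simp
  · have h0' : (t.1.1 : ℕ) = 1 := by omega
    have h1 : (t.1.2.1 : ℕ) = 0 := by omega
    have h2 : (t.1.2.2 : ℕ) = 0 := by omega
    rw [h0', h1, h2]
    simp

/-- The exponent vector. -/
noncomputable def ex {N : ℕ} (t : Idx N) : V :=
  ![((t.1.1 : ℕ) : ℝ), ((t.1.2.1 : ℕ) : ℝ), ((t.1.2.2 : ℕ) : ℝ)]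

theorem ex_le {N : ℕ} (t : Idx N) (h : dg t = 1) (i : Fin 3) : |ex t i| ≤ 1 := by
  unfold dg at h
  have h0 : (t.1.1 : ℕ) ≤ 1 := by omega
  have h1 : (t.1.2.1 : ℕ) ≤ 1 := by omega
  have h2 : (t.1.2.2 : ℕ) ≤ 1 := by omega
  fin_cases i
  · change |((t.1.1 : ℕ) : ℝ)| ≤ 1
    rw [abs_of_nonneg (by positivity)]
    exact_mod_cast h0
  · change |((t.1.2.1 : ℕ) : ℝ)| ≤ 1
    rw [abs_of_nonneg (by positivity)]
    exact_mod_cast h1
  · change |((t.1.2.2 : ℕ) : ℝ)| ≤ 1
    rw [abs_of_nonneg (by positivity)]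
    exact_mod_cast h2

/-- The linear coefficient vector. -/
noncomputable def bz {N : ℕ} (a : Idx N → ℝ) : V := fun i =>
  ∑ t, if dg t = 1 then a t * ex t i else 0

theorem bz_dot {N : ℕ} (a : Idx N → ℝ) (x : V) :
    bz a ⬝ᵥ x = ∑ t, if dg t = 1 then a t * mon t x else 0 := by
  simp only [dotProduct, Fin.sum_univ_three, bz, Finset.sum_mul, ← Finset.sum_add_distrib]
  apply Finset.sum_congr rfl
  intro t _
  split_ifs with h
  · rw [mon_lin t h x]
    simp only [ex, Matrix.cons_val_zero, Matrix.cons_val_one, Matrix.cons_val]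
    ring
  · ring

theorem bz_le {N : ℕ} (a : Idx N → ℝ) (i : Fin 3) :
    |bz a i| ≤ Fintype.card (Idx N) * ‖a‖ := by
  rw [bz]
  refine (Finset.abs_sum_le_sum_abs _ _).trans ?_
  calc ∑ t, |if dg t = 1 then a t * ex t i else 0| ≤ ∑ _t : Idx N, ‖a‖ := by
        apply Finset.sum_le_sum
        intro t _
        split_ifs with h
        · rw [abs_mul]
          have h1 : |a t| ≤ ‖a‖ := by simpa using norm_le_pi_norm a t
          have := mul_le_mul h1 (ex_le t h i) (abs_nonneg _) (norm_nonneg _)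
          simpa using this
        · simp
    _ = _ := by rw [Finset.sum_const, nsmul_eq_mul, Finset.card_univ]

theorem gD5 : G_D5 := by
  intro N
  set K : ℝ := (Fintype.card (Idx N) : ℝ) with hK
  have hK0 : 0 ≤ K := by positivity
  refine ⟨K * 2 ^ N + K ^ 2 + 1, by positivity, ?_⟩
  intro S r ε κ hS hε0 hε1 a σ E ha hσ haσ hE
  obtain ⟨x, hx, hmin⟩ := hS.min ((1 / 2 : ℝ) • bz a)
  obtain ⟨hx0, hxr⟩ := hS.onS x hx
  set u := proj x with hu
  have hus : u ∈ sph := proj_sph hx0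
  have huu : u ⬝ᵥ u = 1 := hus
  have hxx : x ⬝ᵥ x = r u ^ 2 := by
    rw [hxr, smul_dotProduct, dotProduct_smul, huu]
    simp only [smul_eq_mul]
    ring
  have hres : x ⬝ᵥ x - 1 = res r a u + ev a x := by
    rw [hxx, res, ← hxr]
    ring
  have hnx : ‖x‖ ≤ 2 := by
    have h1 := (abs_le.1 (hS.bd u hus)).2
    have h2 := nrm_sq x
    have h3 := nrm_nonneg x
    have h4 : nrm x ≤ 2 := by nlinarith
    exact (norm_le_nrm x).trans h4
  have hsplit : ev a x = bz a ⬝ᵥ x + ∑ t, if dg t = 1 then 0 else a t * mon t x := by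
    rw [bz_dot, ev, ← Finset.sum_add_distrib]
    apply Finset.sum_congr rfl
    intro t _
    split_ifs <;> ring
  have hexp : (x - (1 / 2 : ℝ) • bz a) ⬝ᵥ (x - (1 / 2 : ℝ) • bz a) - 1
      = res r a u + (∑ t, if dg t = 1 then 0 else a t * mon t x)
        + (1 / 4) * (bz a ⬝ᵥ bz a) := by
    have : (x - (1 / 2 : ℝ) • bz a) ⬝ᵥ (x - (1 / 2 : ℝ) • bz a)
        = x ⬝ᵥ x - bz a ⬝ᵥ x + (1 / 4) * (bz a ⬝ᵥ bz a) := by
      simp only [dotProduct, Fin.sum_univ_three, Pi.sub_apply, Pi.smul_apply, smul_eq_mul]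
      ring
    rw [this]
    linarith [hres, hsplit]
  have hs2 : |∑ t, if dg t = 1 then 0 else a t * mon t x| ≤ K * (σ * 2 ^ N) := by
    refine (Finset.abs_sum_le_sum_abs _ _).trans ?_
    calc ∑ t, |if dg t = 1 then 0 else a t * mon t x| ≤ ∑ _t : Idx N, σ * 2 ^ N := by
          apply Finset.sum_le_sum
          intro t _
          split_ifs with h
          · simp only [abs_zero]
            positivity
          · rw [abs_mul]
            exact mul_le_mul (haσ t h) (mon_bound t (by norm_num) hnx) (abs_nonneg _) hσ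
      _ = _ := by rw [Finset.sum_const, nsmul_eq_mul, Finset.card_univ]
  have hbb : bz a ⬝ᵥ bz a ≤ 3 * (K * ‖a‖) ^ 2 := by
    have h : ∀ i, bz a i * bz a i ≤ (K * ‖a‖) ^ 2 := by
      intro i
      have h1 := bz_le a i
      rw [← pow_two]
      exact sq_le_sq' (by linarith [neg_abs_le (bz a i)]) ((le_abs_self _).trans h1)
    simp only [dotProduct, Fin.sum_univ_three]
    linarith [h 0, h 1, h 2]
  have hbb0 : 0 ≤ bz a ⬝ᵥ bz a := by
    simp only [dotProduct, Fin.sum_univ_three]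
    nlinarith [mul_self_nonneg (bz a 0), mul_self_nonneg (bz a 1), mul_self_nonneg (bz a 2)]
  rw [hexp] at hmin
  have hfin : ε ≤ E + K * (σ * 2 ^ N) + (1 / 4) * (3 * (K * ‖a‖) ^ 2) := by
    refine hmin.trans ((abs_add_le _ _).trans ?_)
    refine add_le_add ((abs_add_le _ _).trans (add_le_add (hE u hus) hs2)) ?_
    rw [abs_of_nonneg (by positivity)]
    linarith
  have hp : (0 : ℝ) ≤ 2 ^ N := by positivity
  have ha0 := norm_nonneg a
  have h1 : 0 ≤ K * 2 ^ N * ‖a‖ ^ 2 := by positivity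
  have h2 : 0 ≤ K ^ 2 * σ := by positivity
  have h3 : 0 ≤ K ^ 2 * ‖a‖ ^ 2 := by positivity
  have h4 : 0 ≤ ‖a‖ ^ 2 := by positivity
  nlinarith

end Pool.Agent.Helper3.LU
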